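import Pool.Agent.Helper98.HQ.Spec

/-!
# HQ: part EXI (Loynes)
-/

set_option autoImplicit false

open MeasureTheory Filter Topology
open scoped ENNReal NNReal

namespace Pool.Agent.H62.HQ.EXI

open Pool.Agent.Helper98.HQ

/-- The backward iterates. -/
noncomputable def Yn {k : ℕ} : ℕ → (ℕ → ℝ × ℝ) → (Fin k → ℝ)
  | 0, _ => 0
  | n + 1, ω => stp 1 (Yn n (fun j => ω (j + 1))) (ω 0)

theorem Yn_adm (hKWB : S_KWB) {k : ℕ} (n : ℕ) (ω : ℕ → ℝ × ℝ) : Adm (Yn (k := k) n ω) := by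
  cases n with
  | zero => exact ⟨fun _ _ _ => le_rfl, fun _ => le_rfl⟩
  | succ n => exact (hKWB k _ 0 _ 0 _).1

theorem Yn_mono (hKWB : S_KWB) {k : ℕ} (n : ℕ) (ω : ℕ → ℝ × ℝ) (i : Fin k) :
    Yn n ω i ≤ Yn (n + 1) ω i := by
  induction n generalizing ω i with
  | zero => exact (Yn_adm hKWB 1 ω).2 i
  | succ n ih =>
    exact (hKWB k (Yn n fun j => ω (j + 1)) (Yn (n + 1) fun j => ω (j + 1)) _ _ _).2.1
      (fun i => ih _ i) le_rfl i

theorem shift_meas : Measurable (fun (ω : ℕ → ℝ × ℝ) (j : ℕ) => ω (j + 1)) :=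
  measurable_pi_lambda _ fun j => measurable_pi_apply (j + 1)

theorem cns_meas : Measurable (fun z : (ℝ × ℝ) × (ℕ → ℝ × ℝ) => cns z.1 z.2) := by
  refine measurable_pi_lambda _ fun j => ?_
  cases j with
  | zero => exact measurable_fst
  | succ j => exact (measurable_pi_apply j).comp measurable_snd

theorem Yn_meas (hKWM : S_KWM) {k : ℕ} (n : ℕ) : Measurable (Yn (k := k) n) := by
  induction n with
  | zero => exact measurable_const
  | succ n ih =>
    exact (hKWM.2.1 k 1).comp ((ih.comp shift_meas).prodMk (measurable_pi_apply 0))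

theorem adm_meas (k : ℕ) : MeasurableSet {w : Fin k → ℝ | Adm w} := by
  have : {w : Fin k → ℝ | Adm w} = (⋂ i : Fin k, ⋂ j : Fin k, {w | i ≤ j → w i ≤ w j}) ∩
      ⋂ i : Fin k, {w | 0 ≤ w i} := by
    ext w
    simp only [Set.mem_ofPred_eq, Set.mem_inter_iff, Set.mem_iInter, Adm, Monotone]
  rw [this]
  refine MeasurableSet.inter (MeasurableSet.iInter fun i => MeasurableSet.iInter fun j => ?_)
    (MeasurableSet.iInter fun i => ?_)
  · by_cases h : i ≤ j
    · simp only [h, true_imp_iff]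
      exact measurableSet_le (measurable_pi_apply i) (measurable_pi_apply j)
    · simp [h]
  · exact measurableSet_le measurable_const (measurable_pi_apply i)

theorem main (hDR : S_DRIFT) (hKWB : S_KWB) (hKWM : S_KWM) (hISO : S_ISO) (hRED1 : S_RED1) :
    S_EXI := by
  intro k μT μS hk h
  obtain ⟨m, rfl⟩ : ∃ m, k = m + 1 := ⟨k - 1, by omega⟩
  obtain ⟨hin, -, -, -⟩ := hRED1 (m + 1) μT μS h
  have := h.pT
  have := h.pS
  obtain ⟨ν, hν⟩ : ∃ ν, ν = μT.prod μS := ⟨_, rfl⟩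
  rw [← hν] at hin
  have hνp : IsProbabilityMeasure ν := hin.prob
  obtain ⟨P, hP⟩ : ∃ P, P = Measure.infinitePi (fun _ : ℕ => ν) := ⟨_, rfl⟩
  have hPp : IsProbabilityMeasure P := by rw [hP]; infer_instance
  have iso := hISO ν hνp
  rw [← hP] at iso
  -- the law of the iterates
  have law : ∀ (n : ℕ) (f : (Fin (m + 1) → ℝ) → ℝ≥0∞), Measurable f →
      ∫⁻ ω, f (Yn n ω) ∂P = (op ν 1)^[n] f 0 := by
    intro n
    induction n with
    | zero =>
      intro f hf
      simp [Yn]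
    | succ n ih =>
      intro f hf
      have mop : Measurable (op ν 1 f) := hKWM.2.2.1 (m + 1) ν 1 f hνp hf 1
      rw [Function.iterate_succ_apply, ← ih _ mop]
      have m1 : Measurable (fun z : (ℝ × ℝ) × (ℕ → ℝ × ℝ) => f (stp 1 (Yn n z.2) z.1)) :=
        hf.comp ((hKWM.2.1 (m + 1) 1).comp
          (((Yn_meas hKWM n).comp measurable_snd).prodMk measurable_fst))
      calc ∫⁻ ω, f (Yn (n + 1) ω) ∂P
          = ∫⁻ ω, f (Yn (n + 1) ω) ∂((ν.prod P).map
            (fun z : (ℝ × ℝ) × (ℕ → ℝ × ℝ) => cns z.1 z.2)) := by rw [iso]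
        _ = ∫⁻ z, f (Yn (n + 1) (cns z.1 z.2)) ∂(ν.prod P) :=
            lintegral_map (hf.comp (Yn_meas hKWM (n + 1))) cns_meas
        _ = ∫⁻ z, f (stp 1 (Yn n z.2) z.1) ∂(ν.prod P) := rfl
        _ = ∫⁻ ω, ∫⁻ u, f (stp 1 (Yn n ω) u) ∂ν ∂P := lintegral_prod_symm' _ m1
        _ = ∫⁻ ω, op ν 1 f (Yn n ω) ∂P := rfl
  -- the means are bounded
  obtain ⟨c, C, hc, hC, hdr⟩ := hDR m ν hin
  have nnS : ∀ n (ω : ℕ → ℝ × ℝ), 0 ≤ ∑ i, Yn (k := m + 1) n ω i := fun n ω =>
    Finset.sum_nonneg fun i _ => (Yn_adm hKWB n ω).2 i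
  have mS : ∀ n, Measurable (fun ω => ENNReal.ofReal (∑ i, Yn (k := m + 1) n ω i)) := fun n =>
    (Finset.measurable_sum _ fun i _ =>
      (measurable_pi_apply i).comp (Yn_meas hKWM n)).ennreal_ofReal
  have mono1 : ∀ ω, Monotone (fun n => ENNReal.ofReal (∑ i, Yn (k := m + 1) n ω i)) := fun ω =>
    monotone_nat_of_le_succ fun n => ENNReal.ofReal_le_ofReal
      (Finset.sum_le_sum fun i _ => Yn_mono hKWB n ω i)
  set J : ℕ → ℝ≥0∞ := fun n => ∫⁻ ω, ENNReal.ofReal (∑ i, Yn (k := m + 1) n ω i) ∂P with hJ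
  have Jmono : Monotone J := fun a b hab => lintegral_mono fun ω => mono1 ω hab
  have Jle : ∀ n, J n ≤ ENNReal.ofReal (2 * C / c) := by
    intro n
    have h1 := hdr 0 (2 * n + 1) ⟨fun _ _ _ => le_rfl, fun _ => le_rfl⟩
    have h2 : ∀ j, (op ν 1)^[j] (fun w : Fin (m + 1) → ℝ => ENNReal.ofReal (∑ i, w i)) 0 = J j :=
      fun j => (law j _ (Finset.measurable_sum _ fun i _ =>
        measurable_pi_apply i).ennreal_ofReal).symm
    simp only [h2] at h1
    have h3 : ((n : ℝ≥0∞) + 1) * J n ≤ ∑ j ∈ Finset.range (2 * n + 1), J j := by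
      have h4 : ∑ j ∈ Finset.Ico n (2 * n + 1), J n ≤ ∑ j ∈ Finset.Ico n (2 * n + 1), J j :=
        Finset.sum_le_sum fun j hj => Jmono (Finset.mem_Ico.mp hj).1
      have h5 : ∑ j ∈ Finset.Ico n (2 * n + 1), J j ≤ ∑ j ∈ Finset.range (2 * n + 1), J j :=
        Finset.sum_le_sum_of_subset fun j hj =>
          Finset.mem_range.mpr (Finset.mem_Ico.mp hj).2
      have h6 : ∑ j ∈ Finset.Ico n (2 * n + 1), J n = ((n : ℝ≥0∞) + 1) * J n := by
        rw [Finset.sum_const, Nat.card_Ico, nsmul_eq_mul]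
        congr 1
        have : 2 * n + 1 - n = n + 1 := by omega
        rw [this]
        push_cast
        rfl
      rw [← h6]
      exact h4.trans h5
    have h7 : ENNReal.ofReal ((∑ i : Fin (m + 1), (0 : Fin (m + 1) → ℝ) i ^ 2 +
        C * ((2 * n + 1 : ℕ) : ℝ)) / c) ≤ ((n : ℝ≥0∞) + 1) * ENNReal.ofReal (2 * C / c) := by
      have e : ((n : ℝ≥0∞) + 1) = ENNReal.ofReal ((n : ℝ) + 1) := by
        rw [ENNReal.ofReal_add (Nat.cast_nonneg n) zero_le_one, ENNReal.ofReal_natCast,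
          ENNReal.ofReal_one]
      rw [e, ← ENNReal.ofReal_mul (by positivity)]
      apply ENNReal.ofReal_le_ofReal
      simp only [Pi.zero_apply]
      push_cast
      rw [← mul_div_assoc]
      apply div_le_div_of_nonneg_right _ hc.le
      simp
      nlinarith
    have h8 := (h3.trans h1).trans h7
    have h9 : ((n : ℝ≥0∞) + 1) ≠ 0 := by simp
    have h10 : ((n : ℝ≥0∞) + 1) ≠ ∞ := by
      exact ENNReal.add_ne_top.mpr ⟨ENNReal.natCast_ne_top n, ENNReal.one_ne_top⟩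
    exact (ENNReal.mul_le_mul_iff_right h9 h10).mp h8
  -- the supremum is finite almost everywhere
  have fin : ∀ᵐ ω ∂P, ∀ i : Fin (m + 1), BddAbove (Set.range fun n => Yn n ω i) := by
    have h1 : ∫⁻ ω, ⨆ n, ENNReal.ofReal (∑ i, Yn (k := m + 1) n ω i) ∂P ≠ ∞ := by
      rw [lintegral_iSup mS (fun a b hab ω => mono1 ω hab)]
      exact ((iSup_le Jle).trans_lt ENNReal.ofReal_lt_top).ne
    filter_upwards [ae_lt_top (Measurable.iSup mS) h1] with ω hω i
    refine ⟨(⨆ n, ENNReal.ofReal (∑ i, Yn (k := m + 1) n ω i)).toReal, ?_⟩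
    rintro _ ⟨n, rfl⟩
    have h2 : Yn n ω i ≤ ∑ i, Yn (k := m + 1) n ω i :=
      Finset.single_le_sum (f := fun i => Yn n ω i) (fun j _ => (Yn_adm hKWB n ω).2 j)
        (Finset.mem_univ i)
    have h3 := le_iSup (fun n => ENNReal.ofReal (∑ i, Yn (k := m + 1) n ω i)) n
    have h4 := ENNReal.toReal_mono hω.ne h3
    rw [ENNReal.toReal_ofReal (nnS n ω)] at h4
    exact h2.trans h4
  -- the limit
  set Y : (ℕ → ℝ × ℝ) → (Fin (m + 1) → ℝ) := fun ω i => ⨆ n, Yn n ω i with hY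
  have mY : Measurable Y := measurable_pi_lambda _ fun i =>
    Measurable.iSup fun n => (measurable_pi_apply i).comp (Yn_meas hKWM n)
  have mono2 : ∀ ω (i : Fin (m + 1)), Monotone (fun n => Yn n ω i) := fun ω i =>
    monotone_nat_of_le_succ fun n => Yn_mono hKWB n ω i
  have lim : ∀ᵐ ω ∂P, Tendsto (fun n => Yn n ω) atTop (𝓝 (Y ω)) := by
    filter_upwards [fin] with ω hω
    rw [tendsto_pi_nhds]
    intro i
    exact tendsto_atTop_ciSup (mono2 ω i) (hω i)
  have kwc : ∀ u : ℝ × ℝ, Continuous (fun w : Fin (m + 1) → ℝ => stp 1 w u) := fun u => by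
    have := (hKWM.1 (m + 1)).comp (Continuous.prodMk continuous_id
      (continuous_const (y := (max u.1 0, (1 : ℝ) * max u.2 0))))
    exact this
  have key : ∀ᵐ z ∂(ν.prod P), kw (Y z.2) z.1.2 z.1.1 = Y (cns z.1 z.2) := by
    have h1 : ∀ᵐ z ∂(ν.prod P), Tendsto (fun n => Yn n z.2) atTop (𝓝 (Y z.2)) :=
      Measure.quasiMeasurePreserving_snd.ae lim
    have h2 : ∀ᵐ z ∂(ν.prod P), 0 ≤ z.1.1 ∧ 0 ≤ z.1.2 :=
      Measure.quasiMeasurePreserving_fst.ae hin.nn
    filter_upwards [h1, h2] with z hz hz'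
    have h3 : kw (Y z.2) z.1.2 z.1.1 = stp 1 (Y z.2) z.1 := by
      unfold stp
      rw [one_mul, max_eq_left hz'.1, max_eq_left hz'.2]
    rw [h3]
    have h4 : Tendsto (fun n => Yn (n + 1) (cns z.1 z.2)) atTop (𝓝 (stp 1 (Y z.2) z.1)) :=
      ((kwc z.1).tendsto (Y z.2)).comp hz
    have h5 : Tendsto (fun n => Yn n (cns z.1 z.2)) atTop (𝓝 (stp 1 (Y z.2) z.1)) :=
      (tendsto_add_atTop_iff_nat 1).mp h4
    funext i
    have h6 := (tendsto_pi_nhds.mp h5) i
    exact ((isLUB_of_tendsto_atTop (mono2 _ i) h6).ciSup_eq).symm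
  refine ⟨P.map Y, Measure.isProbabilityMeasure_map mY.aemeasurable, ?_, ?_⟩
  · rw [ae_map_iff mY.aemeasurable (adm_meas (m + 1))]
    filter_upwards [lim] with ω hω
    have hω' := tendsto_pi_nhds.mp hω
    refine ⟨fun i j hij => ?_, fun i => ?_⟩
    · exact le_of_tendsto_of_tendsto' (hω' i) (hω' j) fun n => (Yn_adm hKWB n ω).1 hij
    · exact ge_of_tendsto' (hω' i) fun n => (Yn_adm hKWB n ω).2 i
  · rw [← hν]
    have mkw : Measurable (fun x : (Fin (m + 1) → ℝ) × ℝ × ℝ => kw x.1 x.2.2 x.2.1) :=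
      (hKWM.1 (m + 1)).measurable
    have h1 : (P.map Y).prod ν = (ν.prod P).map (fun z => (Y z.2, z.1)) := by
      have h2 : (P.map Y).prod ν = (P.map Y).prod (ν.map id) := by rw [Measure.map_id]
      rw [h2, Measure.map_prod_map _ _ mY measurable_id, ← Measure.prod_swap,
        Measure.map_map (mY.prodMap measurable_id) measurable_swap]
      rfl
    have mq : Measurable (fun z : (ℝ × ℝ) × (ℕ → ℝ × ℝ) => (Y z.2, z.1)) :=
      (mY.comp measurable_snd).prodMk measurable_fst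
    rw [h1, Measure.map_map mkw mq]
    have h3 : P.map Y = (ν.prod P).map (fun z => Y (cns z.1 z.2)) := by
      calc P.map Y = ((ν.prod P).map
            (fun z : (ℝ × ℝ) × (ℕ → ℝ × ℝ) => cns z.1 z.2)).map Y := by rw [iso]
        _ = _ := by
            rw [Measure.map_map mY cns_meas]
            rfl
    rw [h3]
    exact Measure.map_congr key

end Pool.Agent.H62.HQ.EXI
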