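import Pool.Agent.Helper98.HQ.Spec

/-!
# HQ: part ID
-/

set_option autoImplicit false

open MeasureTheory Filter Topology
open scoped ENNReal NNReal

namespace Pool.Agent.H62.HQ.ID

open Pool.Agent.Helper98.HQ

theorem nsq_meas (m : ℕ) (c : ℝ) :
    Measurable (fun z : (Fin (m + 1) → ℝ) × (ℝ × ℝ) => nsq c z.1 z.2) := by
  unfold nsq
  refine Finset.measurable_sum _ fun i _ => ?_
  by_cases h : (i : ℕ) = 0
  · simp only [h, if_true]
    fun_prop
  · simp only [h, if_false]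
    fun_prop

theorem nsq_nonneg {k : ℕ} (c : ℝ) (w : Fin k → ℝ) (u : ℝ × ℝ) : 0 ≤ nsq c w u :=
  Finset.sum_nonneg fun _ _ => sq_nonneg _

theorem nsq_le {m : ℕ} {c : ℝ} (hc : 0 ≤ c) {w : Fin (m + 1) → ℝ} (hw : Adm w) (u : ℝ × ℝ) :
    nsq c w u ≤ (m + 1) * (max u.1 0) ^ 2 := by
  unfold nsq
  have h : ∀ i : Fin (m + 1), (min (w i + (if (i : ℕ) = 0 then c * max u.2 0 else 0)
      - max u.1 0) 0) ^ 2 ≤ (max u.1 0) ^ 2 := by
    intro i
    have h1 := hw.2 i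
    have h2 : 0 ≤ (if (i : ℕ) = 0 then c * max u.2 0 else 0) := by
      split_ifs
      · exact mul_nonneg hc (le_max_right _ _)
      · exact le_rfl
    have h3 : 0 ≤ max u.1 0 := le_max_right _ _
    have h4 : -(max u.1 0) ≤ min (w i + (if (i : ℕ) = 0 then c * max u.2 0 else 0)
      - max u.1 0) 0 := le_min (by linarith) (by linarith)
    have h5 : min (w i + (if (i : ℕ) = 0 then c * max u.2 0 else 0)
      - max u.1 0) 0 ≤ 0 := min_le_right _ _
    nlinarith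
  refine (Finset.sum_le_sum fun i _ => h i).trans ?_
  simp

theorem abs_min_sub (x y K : ℝ) : |min x K - min y K| ≤ |x - y| := by
  have := abs_min_sub_min_le_max x K y K
  simpa using this

section

variable {m : ℕ} {ν : Measure (ℝ × ℝ)} {π : Measure (Fin (m + 1) → ℝ)}

/-- the difference of the sums of squares -/
theorem D_int (hSQ : S_SQ) (hin : Inp (m + 1) ν) (hπ : IsProbabilityMeasure π)
    (hadm : ∀ᵐ w ∂π, Adm w) (iw : ∀ i, Integrable (fun w : Fin (m + 1) → ℝ => w i) π)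
    {c : ℝ} (hc : 0 ≤ c) :
    Integrable (fun z : (Fin (m + 1) → ℝ) × (ℝ × ℝ) =>
      ∑ i, (stp c z.1 z.2 i) ^ 2 - ∑ i, z.1 i ^ 2) (π.prod ν) ∧
    ∫ z, (∑ i, (stp c z.1 z.2 i) ^ 2 - ∑ i, z.1 i ^ 2) ∂(π.prod ν) =
      2 * c * ((∫ w, w 0 ∂π) * ∫ u, u.2 ∂ν) + c ^ 2 * (∫ u, u.2 ^ 2 ∂ν)
        - 2 * ((∑ i, ∫ w, w i ∂π) * ∫ u, u.1 ∂ν) - 2 * c * (∫ u, u.1 * u.2 ∂ν)
        + (m + 1) * (∫ u, u.1 ^ 2 ∂ν) - Psi ν c π := by
  have hν := hin.prob
  -- inputs
  have e1 : ∀ᵐ u ∂ν, max u.1 0 = u.1 ∧ max u.2 0 = u.2 := by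
    filter_upwards [hin.nn] with u hu
    exact ⟨max_eq_left hu.1, max_eq_left hu.2⟩
  have iT : Integrable (fun u : ℝ × ℝ => u.1) ν := by
    have h2 : MemLp (fun u : ℝ × ℝ => u.1) 2 ν :=
      (memLp_two_iff_integrable_sq measurable_fst.aestronglyMeasurable).mpr hin.T2
    exact h2.integrable (by norm_num)
  have lT : MemLp (fun u : ℝ × ℝ => u.1) 2 ν :=
    (memLp_two_iff_integrable_sq measurable_fst.aestronglyMeasurable).mpr hin.T2
  have lS : MemLp (fun u : ℝ × ℝ => u.2) 2 ν :=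
    (memLp_two_iff_integrable_sq measurable_snd.aestronglyMeasurable).mpr hin.S2
  have iS : Integrable (fun u : ℝ × ℝ => u.2) ν := lS.integrable (by norm_num)
  have iTS : Integrable (fun u : ℝ × ℝ => u.1 * u.2) ν := lT.integrable_mul lS
  -- functions on the product
  have one : Integrable (fun _ : Fin (m + 1) → ℝ => (1 : ℝ)) π := integrable_const 1
  have iW : Integrable (fun w : Fin (m + 1) → ℝ => ∑ i, w i) π :=
    integrable_finsetSum _ fun i _ => iw i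
  have j1 := (iw 0).mul_prod iS
  have j2 := one.mul_prod hin.S2
  have j3 := iW.mul_prod iT
  have j4 := one.mul_prod iTS
  have j5 := one.mul_prod hin.T2
  have hadm' : ∀ᵐ z ∂(π.prod ν), Adm z.1 := Measure.quasiMeasurePreserving_fst.ae hadm
  have e1' : ∀ᵐ z ∂(π.prod ν), max z.2.1 0 = z.2.1 ∧ max z.2.2 0 = z.2.2 :=
    Measure.quasiMeasurePreserving_snd.ae e1
  have j6 : Integrable (fun z : (Fin (m + 1) → ℝ) × (ℝ × ℝ) => nsq c z.1 z.2) (π.prod ν) := by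
    refine (j5.const_mul ((m : ℝ) + 1)).mono' (nsq_meas m c).aestronglyMeasurable ?_
    filter_upwards [hadm', e1'] with z hz hz'
    rw [Real.norm_of_nonneg (nsq_nonneg _ _ _)]
    have := nsq_le hc hz z.2
    rw [hz'.1] at this
    simpa using this
  have hD : (fun z : (Fin (m + 1) → ℝ) × (ℝ × ℝ) =>
      ∑ i, (stp c z.1 z.2 i) ^ 2 - ∑ i, z.1 i ^ 2) =ᵐ[π.prod ν]
      fun z => 2 * c * (z.1 0 * z.2.2) + c ^ 2 * (1 * z.2.2 ^ 2) - 2 * ((∑ i, z.1 i) * z.2.1)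
        - 2 * c * (1 * (z.2.1 * z.2.2)) + (m + 1) * (1 * z.2.1 ^ 2) - nsq c z.1 z.2 := by
    filter_upwards [e1'] with z hz
    have := hSQ m c z.1 z.2
    rw [hz.1, hz.2] at this
    linarith
  have k1 := j1.const_mul (2 * c)
  have k2 := j2.const_mul (c ^ 2)
  have k3 := j3.const_mul 2
  have k4 := j4.const_mul (2 * c)
  have k5 := j5.const_mul ((m : ℝ) + 1)
  have K := ((((k1.add k2).sub k3).sub k4).add k5).sub j6
  refine ⟨K.congr hD.symm, ?_⟩
  rw [integral_congr_ae hD]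
  have K1 : Integrable (fun z : (Fin (m + 1) → ℝ) × (ℝ × ℝ) =>
      2 * c * (z.1 0 * z.2.2) + c ^ 2 * (1 * z.2.2 ^ 2)) (π.prod ν) := k1.add k2
  have K2 : Integrable (fun z : (Fin (m + 1) → ℝ) × (ℝ × ℝ) =>
      2 * c * (z.1 0 * z.2.2) + c ^ 2 * (1 * z.2.2 ^ 2) - 2 * ((∑ i, z.1 i) * z.2.1))
      (π.prod ν) := K1.sub k3
  have K3 : Integrable (fun z : (Fin (m + 1) → ℝ) × (ℝ × ℝ) =>
      2 * c * (z.1 0 * z.2.2) + c ^ 2 * (1 * z.2.2 ^ 2) - 2 * ((∑ i, z.1 i) * z.2.1)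
        - 2 * c * (1 * (z.2.1 * z.2.2))) (π.prod ν) := K2.sub k4
  have K4 : Integrable (fun z : (Fin (m + 1) → ℝ) × (ℝ × ℝ) =>
      2 * c * (z.1 0 * z.2.2) + c ^ 2 * (1 * z.2.2 ^ 2) - 2 * ((∑ i, z.1 i) * z.2.1)
        - 2 * c * (1 * (z.2.1 * z.2.2)) + (m + 1) * (1 * z.2.1 ^ 2)) (π.prod ν) := K3.add k5
  rw [integral_sub K4 j6, integral_add K3 k5, integral_sub K2 k4, integral_sub K1 k3,
    integral_add k1 k2]
  have sn : ∀ g : ℝ × ℝ → ℝ, ∫ z : (Fin (m + 1) → ℝ) × (ℝ × ℝ), g z.2 ∂(π.prod ν)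
      = ∫ u, g u ∂ν := fun g => by
    have := integral_prod_mul (μ := π) (ν := ν) (fun _ : Fin (m + 1) → ℝ => (1 : ℝ)) g
    simpa using this
  simp only [integral_const_mul, one_mul]
  rw [integral_prod_mul (fun w : Fin (m + 1) → ℝ => w 0) (fun u : ℝ × ℝ => u.2),
    integral_prod_mul (fun w : Fin (m + 1) → ℝ => ∑ i, w i) (fun u : ℝ × ℝ => u.1),
    sn (fun u => u.2 ^ 2), sn (fun u => u.1 * u.2), sn (fun u => u.1 ^ 2),
    integral_finsetSum _ fun i _ => iw i, integral_prod _ j6]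
  rfl

end

theorem main (hMB : S_MEANB) (hSQ : S_SQ) (hKWM : S_KWM) : S_ID := by
  intro m ν p a b π hin hp0 hp1 ha hb hab hst
  have hν := hin.prob
  have hπ := hst.prob
  obtain ⟨iw, -⟩ := hMB m ν p a b π hin hp0 hp1 ha hb hab hst
  have mS : ∀ c : ℝ, Measurable (fun x : (Fin (m + 1) → ℝ) × ℝ × ℝ => stp c x.1 x.2) :=
    hKWM.2.1 (m + 1)
  set Z : ℝ → (Fin (m + 1) → ℝ) × (ℝ × ℝ) → ℝ := fun c z => ∑ i, (stp c z.1 z.2 i) ^ 2 with hZ
  set Z0 : (Fin (m + 1) → ℝ) → ℝ := fun w => ∑ i, w i ^ 2 with hZ0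
  have mZ0 : Measurable Z0 := by
    refine Finset.measurable_sum _ fun i _ => ?_
    exact (measurable_pi_apply i).pow_const 2
  have mZ : ∀ c, Measurable (Z c) := fun c => mZ0.comp (mS c)
  have nZ0 : ∀ w, 0 ≤ Z0 w := fun w => Finset.sum_nonneg fun _ _ => sq_nonneg _
  obtain ⟨iDa, vDa⟩ := D_int hSQ hin hπ hst.adm iw ha
  obtain ⟨iDb, vDb⟩ := D_int hSQ hin hπ hst.adm iw hb
  -- bounded integrable functions
  have bI : ∀ (c : ℝ) (n : ℕ), Integrable (fun z => min (Z c z) n) (π.prod ν) := fun c n => by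
    refine (integrable_const (n : ℝ)).mono' ((mZ c).min measurable_const).aestronglyMeasurable ?_
    refine Eventually.of_forall fun z => ?_
    rw [Real.norm_of_nonneg (le_min (nZ0 _) (Nat.cast_nonneg n))]
    exact min_le_right _ _
  have bI0 : ∀ n : ℕ, Integrable (fun w => min (Z0 w) n) π := fun n => by
    refine (integrable_const (n : ℝ)).mono' (mZ0.min measurable_const).aestronglyMeasurable ?_
    refine Eventually.of_forall fun z => ?_
    rw [Real.norm_of_nonneg (le_min (nZ0 _) (Nat.cast_nonneg n))]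
    exact min_le_right _ _
  have bI1 : ∀ n : ℕ, Integrable (fun z : (Fin (m + 1) → ℝ) × (ℝ × ℝ) => min (Z0 z.1) n)
      (π.prod ν) := fun n => (bI0 n).comp_fst ν
  have bV1 : ∀ n : ℕ, ∫ z, min (Z0 z.1) (n : ℝ) ∂(π.prod ν) = ∫ w, min (Z0 w) (n : ℝ) ∂π :=
    fun n => by
      rw [integral_prod _ (bI1 n)]
      simp
  -- invariance for the truncated functions
  have hinv : ∀ n : ℕ, ∫ w, min (Z0 w) (n : ℝ) ∂π = (1 - p) * ∫ z, min (Z a z) (n : ℝ) ∂(π.prod ν)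
      + p * ∫ z, min (Z b z) (n : ℝ) ∂(π.prod ν) := by
    intro n
    have h1 := hst.inv (fun w => ENNReal.ofReal (min (Z0 w) n))
      (mZ0.min measurable_const).ennreal_ofReal
    have h2 : ∀ c, ∫⁻ w, op ν c (fun w => ENNReal.ofReal (min (Z0 w) n)) w ∂π =
        ENNReal.ofReal (∫ z, min (Z c z) (n : ℝ) ∂(π.prod ν)) := fun c => by
      rw [ofReal_integral_eq_lintegral_ofReal (bI c n)
        (Eventually.of_forall fun z => le_min (nZ0 _) (Nat.cast_nonneg n)),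
        lintegral_prod _ ((mZ c).min measurable_const).ennreal_ofReal.aemeasurable]
      rfl
    have n0 : ∀ c, 0 ≤ ∫ z, min (Z c z) (n : ℝ) ∂(π.prod ν) := fun c =>
      integral_nonneg fun z => le_min (nZ0 _) (Nat.cast_nonneg n)
    rw [h2, h2, ← ofReal_integral_eq_lintegral_ofReal (bI0 n)
        (Eventually.of_forall fun z => le_min (nZ0 _) (Nat.cast_nonneg n)),
      ← ENNReal.ofReal_mul (by linarith), ← ENNReal.ofReal_mul hp0,
      ← ENNReal.ofReal_add (mul_nonneg (by linarith) (n0 a)) (mul_nonneg hp0 (n0 b)),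
      ENNReal.ofReal_eq_ofReal_iff (integral_nonneg fun z => le_min (nZ0 _) (Nat.cast_nonneg n))
        (add_nonneg (mul_nonneg (by linarith) (n0 a)) (mul_nonneg hp0 (n0 b)))] at h1
    exact h1
  have hlim : ∀ c, Integrable (fun z => Z c z - Z0 z.1) (π.prod ν) →
      Tendsto (fun n : ℕ => ∫ z, (min (Z c z) (n : ℝ) - min (Z0 z.1) (n : ℝ)) ∂(π.prod ν)) atTop
        (𝓝 (∫ z, (Z c z - Z0 z.1) ∂(π.prod ν))) := by
    intro c hc
    refine tendsto_integral_of_dominated_convergence (fun z => |Z c z - Z0 z.1|) ?_ hc.abs ?_ ?_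
    · intro n
      exact (((mZ c).min measurable_const).sub
        ((mZ0.comp measurable_fst).min measurable_const)).aestronglyMeasurable
    · intro n
      exact Eventually.of_forall fun z => abs_min_sub _ _ _
    · refine Eventually.of_forall fun z => ?_
      refine tendsto_const_nhds.congr' ?_
      filter_upwards [eventually_ge_atTop ⌈max (Z c z) (Z0 z.1)⌉₊] with n hn
      have h3 : max (Z c z) (Z0 z.1) ≤ n := (Nat.le_ceil _).trans (by exact_mod_cast hn)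
      rw [min_eq_left ((le_max_left _ _).trans h3), min_eq_left ((le_max_right _ _).trans h3)]
  have hz : ∀ n : ℕ, (1 - p) * ∫ z, (min (Z a z) (n : ℝ) - min (Z0 z.1) (n : ℝ)) ∂(π.prod ν)
      + p * ∫ z, (min (Z b z) (n : ℝ) - min (Z0 z.1) (n : ℝ)) ∂(π.prod ν) = 0 := by
    intro n
    rw [integral_sub (bI a n) (bI1 n), integral_sub (bI b n) (bI1 n), bV1, hinv n]
    ring
  have hfin := tendsto_nhds_unique
    (((hlim a iDa).const_mul (1 - p)).add ((hlim b iDb).const_mul p))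
    (tendsto_const_nhds.congr fun n => (hz n).symm)
  rw [vDa, vDb] at hfin
  have h7 : (1 - p) * a + p * b = 1 := hab
  have h8 : 2 * ((∫ u, u.1 ∂ν) * ∑ i, ∫ w, w i ∂π - (∫ u, u.2 ∂ν) * ∫ w, w 0 ∂π)
      = 2 * ((∫ u, u.1 ∂ν) * ∑ i, ∫ w, w i ∂π
        - ((1 - p) * a + p * b) * ((∫ u, u.2 ∂ν) * ∫ w, w 0 ∂π)) := by
    rw [h7]; ring
  have h9 : 2 * (∫ u, u.1 * u.2 ∂ν) = ((1 - p) * a + p * b) * (2 * (∫ u, u.1 * u.2 ∂ν)) := by
    rw [h7]; ring
  rw [h8, h9]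
  linear_combination (-1 : ℝ) * hfin

end Pool.Agent.H62.HQ.ID
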