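import Pool.Agent.Helper98.HQ.Spec

/-!
# HQ: part PSYS
-/

set_option autoImplicit false

open MeasureTheory Filter Topology
open scoped ENNReal NNReal

namespace Pool.Agent.H62.HQ.PSYS

open Pool.Agent.Helper98.HQ

theorem pert_int {β ε : ℝ} {μS : Measure ℝ} {f : ℝ → ℝ} (hf : Measurable f)
    (h1 : Integrable (fun s => f (s * (1 - β * ε))) μS)
    (h2 : Integrable (fun s => f (s * (1 + β / ε))) μS) :
    Integrable f (pert β ε μS) ∧
    ∫ s, f s ∂(pert β ε μS) = (1 / (1 + ε ^ 2)) * ∫ s, f (s * (1 - β * ε)) ∂μS +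
      (ε ^ 2 / (1 + ε ^ 2)) * ∫ s, f (s * (1 + β / ε)) ∂μS := by
  have m1 : Measurable (fun s : ℝ => s * (1 - β * ε)) := by fun_prop
  have m2 : Measurable (fun s : ℝ => s * (1 + β / ε)) := by fun_prop
  have i1 : Integrable f (μS.map (fun s => s * (1 - β * ε))) :=
    (integrable_map_measure hf.aestronglyMeasurable m1.aemeasurable).mpr h1
  have i2 : Integrable f (μS.map (fun s => s * (1 + β / ε))) :=
    (integrable_map_measure hf.aestronglyMeasurable m2.aemeasurable).mpr h2
  have j1 := i1.smul_measure (c := ENNReal.ofReal (1 / (1 + ε ^ 2))) ENNReal.ofReal_ne_top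
  have j2 := i2.smul_measure (c := ENNReal.ofReal (ε ^ 2 / (1 + ε ^ 2))) ENNReal.ofReal_ne_top
  refine ⟨j1.add_measure j2, ?_⟩
  unfold pert
  rw [integral_add_measure j1 j2, integral_smul_measure, integral_smul_measure,
    integral_map m1.aemeasurable hf.aestronglyMeasurable,
    integral_map m2.aemeasurable hf.aestronglyMeasurable,
    ENNReal.toReal_ofReal (by positivity), ENNReal.toReal_ofReal (by positivity)]
  simp only [smul_eq_mul]

theorem main : S_PSYS := by
  intro k μT μS β ε h hβ hε hbe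
  have := h.pT
  have := h.pS
  have hb : 0 < 1 - β * ε := by linarith
  have hc : 0 < 1 + β / ε := by positivity
  have hE : 0 < 1 + ε ^ 2 := by positivity
  have iS : Integrable (fun s : ℝ => s) μS := by
    have h2 : MemLp (fun s : ℝ => s) 2 μS :=
      (memLp_two_iff_integrable_sq measurable_id.aestronglyMeasurable).mpr h.S2
    exact h2.integrable (by norm_num)
  obtain ⟨i1, e1⟩ := pert_int (β := β) (ε := ε) (μS := μS) (f := fun s => s) measurable_id
    (iS.mul_const _) (iS.mul_const _)
  have q : ∀ a : ℝ, Integrable (fun s : ℝ => (s * a) ^ 2) μS := fun a => by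
    have := h.S2.mul_const (a ^ 2)
    refine this.congr (Eventually.of_forall fun s => ?_)
    simp only
    ring
  obtain ⟨i2, e2⟩ := pert_int (β := β) (ε := ε) (μS := μS) (f := fun s => s ^ 2) (by fun_prop)
    (q _) (q _)
  have v1 : ∫ s, s ∂(pert β ε μS) = ∫ s, s ∂μS := by
    rw [e1, integral_mul_const, integral_mul_const]
    field_simp
    ring
  have v2 : ∫ s, s ^ 2 ∂(pert β ε μS) = (1 + β ^ 2) * ∫ s, s ^ 2 ∂μS := by
    rw [e2]
    simp only [mul_pow]
    rw [integral_mul_const, integral_mul_const]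
    field_simp
    ring
  have m1 : Measurable (fun s : ℝ => s * (1 - β * ε)) := by fun_prop
  have m2 : Measurable (fun s : ℝ => s * (1 + β / ε)) := by fun_prop
  refine ⟨⟨h.pT, ⟨?_⟩, h.T0, ?_, h.T2, i2, h.Tpos, ?_, ?_⟩, v1, v2⟩
  · unfold pert
    simp only [Measure.add_apply, Measure.smul_apply, smul_eq_mul]
    rw [Measure.map_apply m1 MeasurableSet.univ, Measure.map_apply m2 MeasurableSet.univ]
    simp only [Set.preimage_univ, measure_univ, mul_one]
    rw [← ENNReal.ofReal_add (by positivity) (by positivity)]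
    have : 1 / (1 + ε ^ 2) + ε ^ 2 / (1 + ε ^ 2) = 1 := by field_simp
    rw [this, ENNReal.ofReal_one]
  · unfold pert
    rw [ae_add_measure_iff]
    refine ⟨Measure.ae_smul_measure ?_ _, Measure.ae_smul_measure ?_ _⟩
    · rw [ae_map_iff m1.aemeasurable measurableSet_Ici]
      filter_upwards [h.S0] with s hs
      positivity
    · rw [ae_map_iff m2.aemeasurable measurableSet_Ici]
      filter_upwards [h.S0] with s hs
      positivity
  · rw [v1]; exact h.Spos
  · rw [v1]; exact h.stab

end Pool.Agent.H62.HQ.PSYS
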